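import Pool.Agent.N841.Chain.Main

/-!
# A maximal ideal on `ω` that is the union of a strictly increasing `ω₁`-chain of ideals

In ZFC there is a maximal ideal on `ω` that is the union of a strictly increasing sequence of
ideals indexed by the countable ordinals. One and the same maximal ideal is also the union of a
strictly increasing `κ`-sequence of ideals for every ordinal `κ` of uncountable cofinality and
of cardinality at most `2 ^ ω`.
-/

open Set Cardinal Ordinal

namespace Pool.Agent.Results.MP_ea2126_lc.OmegaOneChain

open N841.Chain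

theorem result : ∃ I : Set (Set ℕ), IsMaximalIdealOn I ∧
    IsStrictChainUnion ω₁ I ∧
    ∀ κ : Ordinal.{0}, ℵ₀ < κ.cof → κ.card ≤ 𝔠 → IsStrictChainUnion κ I := by
  obtain ⟨I, hI, h⟩ := main
  refine ⟨I, hI, h ω₁ ?_ ?_, h⟩
  · rw [Cardinal.cof_omega_one]
    exact Cardinal.aleph0_lt_aleph_one
  · rw [Ordinal.card_omega]
    exact Cardinal.aleph_one_le_continuum

end Pool.Agent.Results.MP_ea2126_lc.OmegaOneChain
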